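import Pool.Agent.V5helper68.CS.Jobs

/-!
# Jobs MA (maximal matchings) and F2 (Step 3)
-/

set_option autoImplicit false

open scoped RealInnerProductSpace
open Finset

namespace Pool.Agent.V5helper98.CS

open Pool.Agent.V5helper68.CS

theorem jobMA : JobMA := by
  classical
  intro I _ _ bad
  let S : Finset (Finset I × (I → I)) := univ.filter fun x =>
    Set.InjOn x.2 (x.1 : Set I) ∧ ∀ q ∈ x.1, x.2 q ≠ q ∧ bad (x.2 q) q
  have hS : S.Nonempty := ⟨(∅, id), by simp [S]⟩
  obtain ⟨x, hx, hmax⟩ := S.exists_max_image (fun x => x.1.card) hS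
  have hx' : Set.InjOn x.2 (x.1 : Set I) ∧ ∀ q ∈ x.1, x.2 q ≠ q ∧ bad (x.2 q) q := by
    simpa [S] using hx
  refine ⟨x.1, x.2, hx'.1, hx'.2, ?_⟩
  intro q hq p hpq hbad
  by_contra hp
  have hmem : (insert q x.1, Function.update x.2 q p) ∈ S := by
    simp only [S, mem_filter, mem_univ, true_and]
    constructor
    · intro r hr r' hr' h
      simp only [coe_insert, Set.mem_insert_iff, mem_coe] at hr hr'
      rcases hr with hr | hr
      · rcases hr' with hr' | hr'
        · rw [hr, hr']
        · have hne : r' ≠ q := fun h' => hq (h' ▸ hr')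
          rw [hr, Function.update_self, Function.update_of_ne hne] at h
          exact absurd (mem_image.mpr ⟨r', hr', h.symm⟩) hp
      · have hne : r ≠ q := fun h' => hq (h' ▸ hr)
        rcases hr' with hr' | hr'
        · rw [hr', Function.update_self, Function.update_of_ne hne] at h
          exact absurd (mem_image.mpr ⟨r, hr, h⟩) hp
        · have hne' : r' ≠ q := fun h' => hq (h' ▸ hr')
          rw [Function.update_of_ne hne, Function.update_of_ne hne'] at h
          exact hx'.1 hr hr' h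
    · intro r hr
      rcases mem_insert.mp hr with hr | hr
      · rw [hr, Function.update_self]; exact ⟨hpq, hbad⟩
      · have hne : r ≠ q := fun h' => hq (h' ▸ hr)
        rw [Function.update_of_ne hne]; exact hx'.2 r hr
  have := hmax _ hmem
  simp only [card_insert_of_notMem hq] at this
  omega

section F2

variable {I V : Type} [Fintype I] [DecidableEq I] [NormedAddCommGroup V] [InnerProductSpace ℝ V]

/-- the vector `e_q ⊗ v` -/
noncomputable def sv (q : I) : V →ₗ[ℝ] EE I V where
  toFun v := WithLp.toLp 2 (Pi.single q v)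
  map_add' v w := by
    ext r
    by_cases h : r = q
    · subst h; simp
    · simp [h]
  map_smul' a v := by
    ext r
    by_cases h : r = q
    · subst h; simp
    · simp [h]

omit [Fintype I] in
theorem sv_self (q : I) (v : V) : (sv q v : EE I V) q = v := by simp [sv]

omit [Fintype I] in
theorem sv_ne (q r : I) (h : r ≠ q) (v : V) : (sv q v : EE I V) r = 0 := by simp [sv, h]

theorem norm_sv (q : I) (v : V) : ‖(sv q v : EE I V)‖ = ‖v‖ := by
  have h : ‖(sv q v : EE I V)‖ ^ 2 = ‖v‖ ^ 2 := by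
    rw [PiLp.norm_sq_eq_of_L2, Finset.sum_eq_single q]
    · rw [sv_self]
    · intro r _ hr; rw [sv_ne q r hr]; simp
    · intro h; exact absurd (mem_univ q) h
  exact (pow_left_inj₀ (norm_nonneg _) (norm_nonneg _) two_ne_zero).mp h

theorem inner_sv (y : EE I V) (q : I) (v : V) : ⟪y, (sv q v : EE I V)⟫ = ⟪y q, v⟫ := by
  rw [PiLp.inner_apply, Finset.sum_eq_single q]
  · rw [sv_self]
  · intro r _ hr; rw [sv_ne q r hr]; simp
  · intro h; exact absurd (mem_univ q) h

theorem Os_sv (P : Prof I V) (p : I) (u : V) : P.Os (sv p u) = 0 := by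
  ext r
  simp only [Prof.Os]
  by_cases h : r = p
  · subst h
    rw [sv_self, norm_sv]
    rcases eq_or_ne u 0 with hu | hu
    · rw [hu]; simp
    · rw [div_self (norm_ne_zero_iff.mpr hu), Real.log_one, P.zero]; simp
  · rw [sv_ne p r h]; simp

theorem fs_le (P : Prof I V) (z : XS P) (p : I) : ‖fs P z p‖ ≤ ‖z‖ := by
  have h := tf_le P z (sv p (fs P z p))
  rw [tf, Os_sv, inner_zero_right, sub_zero, inner_sv, real_inner_self_eq_norm_sq, norm_sv] at h
  have h2 : ‖fs P z p‖ ^ 2 ≤ ‖z‖ * ‖fs P z p‖ := (le_abs_self _).trans h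
  rcases (norm_nonneg (fs P z p)).eq_or_lt with h0 | h0
  · rw [← h0]; exact norm_nonneg _
  · nlinarith

omit [DecidableEq I] in
theorem sn_coord_le (P : Prof I V) (z : XS P) (p : I) : |sn P z p| ≤ ‖z‖ := by
  refine le_trans ?_ (sn_le P z)
  rw [← Real.norm_eq_abs]
  exact PiLp.norm_apply_le (sn P z) p

/-- the embedding `y ↦ (y, 0)` -/
noncomputable def iE (P : Prof I V) : EE I V →ₗ[ℝ] XS P where
  toFun y := mk P y 0
  map_add' y y' := XS.ext' rfl (by simp)
  map_smul' a y := XS.ext' rfl (by simp)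

theorem lev_eb (P : Prof I V) (v : I → V) (q : I) :
    lev P v (eb q) = iE P (sv q (v q)) + mk P 0 (eb q) := by
  refine XS.ext' ?_ ?_
  · rw [map_add]
    ext r
    by_cases h : r = q
    · subst h
      simp [iE, sv, eb]
    · simp [iE, sv, eb, h]
  · rw [map_add]
    simp [iE]

end F2

theorem nrm_single {M : ℕ} (i : Option (Fin M)) :
    ‖(EuclideanSpace.single i 1 : EuclideanSpace ℝ (Option (Fin M)))‖ = 1 := by simp

theorem inn_single {M : ℕ} (i j : Option (Fin M)) (h : i ≠ j) :
    ⟪(EuclideanSpace.single i 1 : EuclideanSpace ℝ (Option (Fin M))),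
      EuclideanSpace.single j 1⟫ = 0 := by
  rw [EuclideanSpace.inner_single_left]; simp [h]

theorem jobF2 (hF1 : JobF1) (hE1 : JobE1) : JobF2 := by
  intro κ l M η K hκ hl hη hK s hs P hPη hPe hPφ T hT Q₁ π hinj hne hcard hQne
  classical
  set β : ℝ := Real.log κ / 2 with hβ
  set h : ℝ := η * β with hh
  have hκ1 : (1 : ℝ) < κ := by exact_mod_cast (by omega : 1 < κ)
  have hβ0 : 0 < β := by rw [hβ]; have := Real.log_pos hκ1; positivity
  have hh0 : 0 < h := mul_pos hη hβ0
  -- one level
  have hlev : ∀ j ∈ range (8 * l - 1),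
      ∑ q ∈ Q₁, ‖Lv P T (j * β) q (π q)‖ ≤ K * Q₁.card := by
    intro j hj
    have hj' : j ≤ 8 * l - 2 := by have := mem_range.mp hj; omega
    have h1 : κ ^ j ≤ Q₁.card := by
      have h2 : κ ^ (8 * l - 2) ≤ Q₁.card := by
        have h3 : κ ^ 2 * κ ^ (8 * l - 2) ≤ κ ^ 2 * Q₁.card := by
          rw [← pow_add]
          have : 2 + (8 * l - 2) = 8 * l := by omega
          rw [this]; exact hcard
        exact Nat.le_of_mul_le_mul_left h3 (by positivity)
      exact (Nat.pow_le_pow_right (by omega) hj').trans h2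
    have h2 := hF1 _ _ P T K hK hT Q₁ π hinj (κ ^ j) (Nat.one_le_pow _ _ (by omega)) h1
    have h3 : Real.log ((κ ^ j : ℕ) : ℝ) / 2 = j * β := by
      push_cast
      rw [Real.log_pow, hβ]; ring
    rw [h3] at h2
    exact h2
  have hsum : ∑ q ∈ Q₁, ∑ j ∈ range (8 * l - 1), ‖Lv P T (j * β) q (π q)‖ ≤
      ∑ q ∈ Q₁, K * (8 * l - 1 : ℕ) := by
    rw [sum_comm]
    calc ∑ j ∈ range (8 * l - 1), ∑ q ∈ Q₁, ‖Lv P T (j * β) q (π q)‖
        ≤ ∑ j ∈ range (8 * l - 1), K * Q₁.card := sum_le_sum hlev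
      _ = ∑ q ∈ Q₁, K * (8 * l - 1 : ℕ) := by
        rw [sum_const, sum_const, card_range, nsmul_eq_mul, nsmul_eq_mul]; ring
  obtain ⟨q, hq, hqs⟩ := exists_le_of_sum_le hQne hsum
  refine ⟨q, hq, ?_⟩
  set p := π q with hp
  have hpq : p ≠ q := hne q hq
  -- the data of E1
  set V := EuclideanSpace ℝ (Option (Fin M)) with hV
  set e₀ : V := EuclideanSpace.single none 1 with he₀
  set e : Fin M → V := fun i => EuclideanSpace.single (some i) 1 with he
  let a : V →ₗ[ℝ] V :=
    { toFun := fun v => fs P (T (iE P (sv q v))) p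
      map_add' := fun v w => by simp only [map_add]; rfl
      map_smul' := fun c v => by simp only [map_smul]; rfl }
  let c : V →ₗ[ℝ] ℝ :=
    { toFun := fun v => sn P (T (iE P (sv q v))) p
      map_add' := fun v w => by simp only [map_add]; rfl
      map_smul' := fun c v => by simp only [map_smul]; rfl }
  have hnorm : ∀ v : V, ‖T (iE P (sv q v))‖ ≤ K * ‖v‖ := by
    intro v
    refine (hT _).trans ?_
    have : ‖iE P (sv q v : EE _ V)‖ = ‖v‖ := by
      show ‖mk P (sv q v) 0‖ = ‖v‖
      rw [norm_y0, norm_sv]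
    rw [this]
  have ha : ∀ v, ‖a v‖ ≤ K * ‖v‖ := fun v => (fs_le P _ p).trans (hnorm v)
  have hc : ∀ v, |c v| ≤ K * ‖v‖ := fun v => (sn_coord_le P _ p).trans (hnorm v)
  set b : V := fs P (T (mk P 0 (eb q))) p with hb
  set D : ℝ := sn P (T (mk P 0 (eb q))) p with hD
  have hLv : ∀ t : ℝ, Lv P T t q p = a (P.φ q t) + b - (D + c (P.φ q t)) • P.φ p t := by
    intro t
    rw [Lv, lev_eb]
    simp only [map_add]
    show (a (P.φ q t) + b) - (c (P.φ q t) + D) • P.φ p t = _
    rw [add_comm (c _) D]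
  have hE := hE1 V M l h K (2 * K) hl hh0 hK.le (by positivity) e₀ e (nrm_single none)
    (fun i => nrm_single (some i)) (fun i => inn_single _ _ (by simp))
    (fun i j hij => inn_single _ _ (by simpa using hij)) a c b D ha hc (s q) (s p)
    (hs p q hpq) ?_
  · have h1 : Dm P T p q = D + c ((h * (8 * l)) • e₀) := by
      rw [Dm, zz, lev_eb]
      simp only [map_add]
      have h2 : lam P • P.e₀ = (h * (8 * l)) • e₀ := by
        rw [lam, hPη, hPe, Fintype.card_fin]
        congr 1
        push_cast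
        rw [Real.log_pow, hh, hβ]; push_cast; ring
      rw [h2]
      show c ((h * (8 * l)) • e₀) + D = _
      rw [add_comm]
    rw [h1]
    refine hE.trans (le_of_eq ?_)
    ring
  · have h1 : ∀ j ∈ range (8 * l - 1), ‖a (pv h e₀ e (s q) j) + b -
        (D + c (pv h e₀ e (s q) j)) • pv h e₀ e (s p) j‖ = ‖Lv P T (j * β) q p‖ := by
      intro j hj
      have hj' : j ≤ 8 * l := by have := mem_range.mp hj; omega
      rw [hLv, hPφ q j hj', hPφ p j hj']
    rw [sum_congr rfl h1]
    refine hqs.trans ?_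
    have h2 : ((8 * l - 1 : ℕ) : ℝ) ≤ 8 * l := by
      have : 8 * l - 1 ≤ 8 * l := Nat.sub_le _ _
      exact_mod_cast this
    nlinarith

end Pool.Agent.V5helper98.CS
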